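import Mathlib
import Pool.Agent.H985.Par.StmPar
import Pool.Agent.H985.Chow.Asm

/-!
# The parity problem in short intervals over `F_q[X]`, `q` even (helper560): statements of the parts

`m` is irreducible of degree `u`, `m F = a² + X s²` of odd degree `n + u = 2 N + 1`. The polynomial `s` does
not change in the window `F + m t²`, `deg t < L`, and every `s` with `deg (s - S) < u + L` occurs for some
`F` of the interval `deg (F - g) < u + 2 L`. If all irreducible factors of `s` have degree at most `L / 8`,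
the Möbius function cancels in the window, in all its progressions of small modulus.
-/

set_option autoImplicit false

namespace Pool.Agent.H560.SI

open Polynomial
open scoped Classical
open Pool.Agent.H985.Chow (mob)
open Pool.Agent.H985.Par (Sft)
open Pool.Agent.H694.Typ (Mn Irn PU)

/-- All irreducible factors of `f` have degree at most `y`. -/
def Smt {K : Type} [Field K] (y : ℕ) (f : K[X]) : Prop :=
  ∀ P : K[X], P.Monic → Irreducible P → P ∣ f → P.natDegree ≤ y

/-- The squarefree monic `s` of degree `N` with `deg (s - S) < H` whose irreducible factors have degree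
at most `y`. -/
noncomputable def SmI (K : Type) [Field K] [Fintype K] (N H y : ℕ) (S : K[X]) : Finset K[X] :=
  (Mn K N).filter (fun s => (s - S).degree < (H : WithBot ℕ) ∧ Squarefree s ∧ Smt y s)

/-- The monic `f` of degree `n` with `deg (f - g) < h`. -/
noncomputable def Itv (K : Type) [Field K] [Fintype K] (n h : ℕ) (g : K[X]) : Finset K[X] :=
  (Mn K n).filter (fun f => (f - g).degree < (h : WithBot ℕ))

/-- **Task GRP.**  Grouping the irreducible factors. -/
def S_grp : Prop :=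
  ∀ (K : Type) [Field K] (L R y : ℕ) (h : K[X]), h.Monic → Squarefree h → Smt y h → 4 * y + 4 ≤ L →
    L ≤ 2 * h.natDegree → 2 * h.natDegree ≤ R * L →
    ∃ p : Fin (R + 1) → K[X], (∀ j, (p j).Monic) ∧ ∏ j, p j = h ∧
      (∀ j, (p j).natDegree + L / 4 ≤ L) ∧ L ≤ 2 * (p 0).natDegree

/-- **Task WB.**  The window bound. -/
def S_wb : Prop :=
  ∀ (K : Type) [Field K] [Fintype K] [CharP K 2] (lam : ℝ), 0 < lam →
    ∃ κ c : ℝ, 0 < κ ∧ 0 < c ∧ ∃ n₀ : ℕ, ∀ n : ℕ, n₀ ≤ n → ∀ (N u L L' : ℕ) (m s F D : K[X]),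
      n + u = 2 * N + 1 → lam * n ≤ (L : ℝ) → 2 * L + u ≤ n → L < 8 * u →
      m.Monic → Irreducible m → m.natDegree = u → s.Monic → s.natDegree = N → Squarefree s →
      Smt (L / 8) s → F.Monic → F.natDegree = n → derivative (m * F) = s ^ 2 →
      D.Monic → (D.natDegree : ℝ) ≤ κ * n → D.natDegree + L' = L →
      |∑ᶠ v ∈ {v : K[X] | v.degree < (L' : WithBot ℕ)}, (mob (F + m * (D * v) ^ 2) : ℝ)| ≤
        (Fintype.card K : ℝ) ^ ((L : ℝ) - c * n)

/-- **Task FIB.**  The fibres: every `s` with `deg (s - S) < u + L` occurs. -/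
def S_fib : Prop :=
  ∀ (K : Type) [Field K] [Fintype K] [CharP K 2] (n u L N : ℕ) (m g : K[X]),
    n + u = 2 * N + 1 → 1 ≤ u → 1 ≤ L → u + 2 * L ≤ n → m.Monic → Irreducible m → m.natDegree = u →
    g.Monic → g.natDegree = n →
    ∃ S : K[X], S.Monic ∧ S.natDegree = N ∧
      ∀ s : K[X], (s - S).degree < ((u + L : ℕ) : WithBot ℕ) →
        ∃ F ∈ Itv K n (u + 2 * L) g, derivative (m * F) = s ^ 2

/-- **Task RT.**  Every irreducible `P` except `m` divides `F + m t²` for exactly one class of `t`. -/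
def S_rtc : Prop :=
  ∀ (K : Type) [Field K] [Fintype K] [CharP K 2] (m F P : K[X]), m.Monic → Irreducible m →
    P.Monic → Irreducible P → P ≠ m →
    ∃ r : K[X], r.degree < P.degree ∧ ∀ t : K[X], P ∣ F + m * t ^ 2 ↔ P ∣ t - r

/-- **Task PRD.**  Products of irreducible polynomials of given degrees in short intervals. -/
def S_prd : Prop :=
  ∀ (K : Type) [Field K] [Fintype K] (r : ℕ), 1 ≤ r → ∃ C : ℝ, 0 < C ∧
    ∀ (N H : ℕ) (a : Fin r → ℕ) (S : K[X]), (∀ i, 1 ≤ a i) → ∑ i, a i = N → H ≤ N → S.Monic →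
      S.natDegree = N →
      |(((Fintype.piFinset fun i => Irn K (a i)).filter
          (fun P => (∏ i, P i - S).degree < (H : WithBot ℕ))).card : ℝ) -
        (∏ i, ((Irn K (a i)).card : ℝ)) * (Fintype.card K : ℝ) ^ H / (Fintype.card K : ℝ) ^ N| ≤
        (C * N) ^ r * (Fintype.card K : ℝ) ^ ((N : ℝ) / 2)

/-- **Task SM.**  A positive proportion of every interval longer than the square root is smooth. -/
def S_sm : Prop :=
  ∀ (K : Type) [Field K] [Fintype K] (η δ : ℝ), 0 < η → 0 < δ → ∃ c : ℝ, 0 < c ∧ ∃ n₀ : ℕ,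
    ∀ N : ℕ, n₀ ≤ N → ∀ (H y : ℕ) (S : K[X]), (1 / 2 + δ) * N ≤ (H : ℝ) → H ≤ N → η * N ≤ (y : ℝ) →
      S.Monic → S.natDegree = N → c * (Fintype.card K : ℝ) ^ H ≤ (SmI K N H y S).card

/-- **Task VL.**  Mertens' product. -/
def S_vl : Prop :=
  ∀ (K : Type) [Field K] [Fintype K], ∃ c : ℝ, 0 < c ∧ ∀ m : ℕ, 1 ≤ m →
    c / m ≤ ∏ P ∈ PU K m, (1 - 1 / (Fintype.card K : ℝ) ^ P.natDegree)

/-- **Task CUT.**  An interval is a disjoint union of shorter intervals. -/
def S_cut : Prop :=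
  ∀ (K : Type) [Field K] [Fintype K] (n h₀ h : ℕ) (g : K[X]) (p : K[X] → Prop) (A : ℝ),
    h₀ ≤ h → h ≤ n → g.Monic → g.natDegree = n →
    (∀ g' : K[X], g'.Monic → g'.natDegree = n → A ≤ ((Itv K n h₀ g').filter p).card) →
    (Fintype.card K : ℝ) ^ (h - h₀) * A ≤ ((Itv K n h g).filter p).card

/-- **Task T1.**  Both signs with a positive proportion. -/
def S_t1 : Prop :=
  ∀ (K : Type) [Field K] [Fintype K] [CharP K 2] (θ : ℝ), 1 / 3 < θ →
    ∃ c : ℝ, 0 < c ∧ ∃ n₀ : ℕ, ∀ n : ℕ, n₀ ≤ n → ∀ h : ℕ, θ * n ≤ (h : ℝ) → h ≤ n →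
      ∀ (g : K[X]) (σ : ℤ), g.Monic → g.natDegree = n → (σ = 1 ∨ σ = -1) →
        c * (Fintype.card K : ℝ) ^ h ≤ ((Itv K n h g).filter (fun f => mob f = σ)).card

/-- **Task T2.**  Almost primes with both parities, in the right order of magnitude. -/
def S_t2 : Prop :=
  ∀ (K : Type) [Field K] [Fintype K] [CharP K 2] (θ : ℝ), 1 / 3 < θ →
    ∃ κ c : ℝ, 0 < κ ∧ 0 < c ∧ ∃ n₀ : ℕ, ∀ n : ℕ, n₀ ≤ n → ∀ h : ℕ, θ * n ≤ (h : ℝ) → h ≤ n →
      ∀ (g : K[X]) (σ : ℤ), g.Monic → g.natDegree = n → (σ = 1 ∨ σ = -1) →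
        c * (Fintype.card K : ℝ) ^ h / n ≤
          ((Itv K n h g).filter (fun f => mob f = σ ∧ Sft ⌊κ * n⌋₊ f)).card

end Pool.Agent.H560.SI
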