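import Mathlib
import Pool.Agent.H560.SI.Stm

/-!
# The parity problem in short intervals, exponent `1 / 4` (helper560): averaging over `m`

The centre `S_m`, `S_m² = (m g)'`, of the interval of the values `s` depends on `m`. The intervals of the
different `m` are averaged with Cauchy's inequality over the characters, and the one with many smooth
polynomials is used.
-/

set_option autoImplicit false

namespace Pool.Agent.H560.SI

open Polynomial
open scoped Classical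
open Pool.Agent.H985.Chow (mob)
open Pool.Agent.H985.Par (Sft)
open Pool.Agent.H694.Typ (Mn Irn PU)

/-- The number of pairs of members of a family with `deg (S i - S j) < H`. -/
noncomputable def Prs {K : Type} [Field K] {ι : Type} (I : Finset ι) (S : ι → K[X]) (H : ℕ) : ℕ :=
  ((I ×ˢ I).filter (fun p => (S p.1 - S p.2).degree < (H : WithBot ℕ))).card

/-- **Task PRDA.**  Products of irreducible polynomials in a family of short intervals. -/
def S_prdA : Prop :=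
  ∀ (K : Type) [Field K] [Fintype K] (r : ℕ), 1 ≤ r → ∃ C : ℝ, 0 < C ∧
    ∀ (N H : ℕ) (a : Fin r → ℕ) (ι : Type) (I : Finset ι) (S : ι → K[X]), (∀ i, 1 ≤ a i) →
      ∑ i, a i = N → H ≤ N → (∀ i ∈ I, (S i).Monic ∧ (S i).natDegree = N) →
      |(∑ j ∈ I, (((Fintype.piFinset fun i => Irn K (a i)).filter
          (fun P => (∏ i, P i - S j).degree < (H : WithBot ℕ))).card : ℝ)) -
        I.card * (∏ i, ((Irn K (a i)).card : ℝ)) * (Fintype.card K : ℝ) ^ H /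
          (Fintype.card K : ℝ) ^ N| ≤
        (C * N) ^ r * (Fintype.card K : ℝ) ^ ((N : ℝ) / 2) * Real.sqrt (Prs I S H)

/-- **Task SMA.**  A positive proportion of the interval around some member of the family is smooth. -/
def S_smA : Prop :=
  ∀ (K : Type) [Field K] [Fintype K] (η δ : ℝ), 0 < η → 0 < δ → ∃ c : ℝ, 0 < c ∧ ∃ n₀ : ℕ,
    ∀ N : ℕ, n₀ ≤ N → ∀ (H y : ℕ) (ι : Type) (I : Finset ι) (S : ι → K[X]), I.Nonempty →
      δ * N ≤ (H : ℝ) → H ≤ N → η * N ≤ (y : ℝ) → (∀ i ∈ I, (S i).Monic ∧ (S i).natDegree = N) →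
      (Fintype.card K : ℝ) ^ ((1 + δ) * (N : ℝ)) * Prs I S H ≤
        (I.card : ℝ) ^ 2 * (Fintype.card K : ℝ) ^ (2 * H) →
      ∃ i ∈ I, c * (Fintype.card K : ℝ) ^ H ≤ (SmI K N H y (S i)).card

/-- **Task DEG.**  Few multiples of `g` have a derivative of small degree. -/
def S_deg : Prop :=
  ∀ (K : Type) [Field K] [Fintype K] [CharP K 2] (n u H : ℕ) (g : K[X]), g.Monic → g.natDegree = n →
    u + 2 * H ≤ n →
    {μ : K[X] | μ.degree < (u : WithBot ℕ) ∧ (derivative (μ * g)).degree < ((2 * H : ℕ) : WithBot ℕ)}.ncard ≤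
      Fintype.card K ^ ((u + 1) / 2)

/-- Many smooth `s` for some `m`. -/
def Ctr (K : Type) [Field K] [Fintype K] (c : ℝ) (n N u L : ℕ) (g : K[X]) : Prop :=
  ∃ m : K[X], m.Monic ∧ Irreducible m ∧ m.natDegree = u ∧
    ∃ A : Finset K[X], c * (Fintype.card K : ℝ) ^ (u + L) ≤ A.card ∧
      ∀ s ∈ A, s.Monic ∧ s.natDegree = N ∧ Squarefree s ∧ Smt (L / 8) s ∧
        ∃ F ∈ Itv K n (u + 2 * L) g, derivative (m * F) = s ^ 2

/-- The hypothesis on the centres for the exponent `θ`. -/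
def CtrK (K : Type) [Field K] [Fintype K] (θ : ℝ) : Prop :=
  ∃ lam c : ℝ, 0 < lam ∧ 0 < c ∧ ∃ n₀ : ℕ, ∀ n : ℕ, n₀ ≤ n → ∃ N u L : ℕ,
    n + u = 2 * N + 1 ∧ lam * n ≤ (L : ℝ) ∧ 2 * L + u ≤ n ∧ ((2 * L + u : ℕ) : ℝ) ≤ θ * n ∧
    L < 8 * u ∧ ∀ g : K[X], g.Monic → g.natDegree = n → Ctr K c n N u L g

/-- **Task CTR.** -/
def S_ctr : Prop :=
  ∀ (K : Type) [Field K] [Fintype K] [CharP K 2] (θ : ℝ), 1 / 4 < θ → θ ≤ 1 / 3 → CtrK K θ

/-- **Task T1K.**  Both signs with a positive proportion. -/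
def S_t1K : Prop :=
  ∀ (K : Type) [Field K] [Fintype K] [CharP K 2] (θ : ℝ), 0 < θ → CtrK K θ →
    ∃ c : ℝ, 0 < c ∧ ∃ n₀ : ℕ, ∀ n : ℕ, n₀ ≤ n → ∀ h : ℕ, θ * n ≤ (h : ℝ) → h ≤ n →
      ∀ (g : K[X]) (σ : ℤ), g.Monic → g.natDegree = n → (σ = 1 ∨ σ = -1) →
        c * (Fintype.card K : ℝ) ^ h ≤ ((Itv K n h g).filter (fun f => mob f = σ)).card

/-- **Task T2K.**  Almost primes with both parities, in the right order of magnitude. -/
def S_t2K : Prop :=
  ∀ (K : Type) [Field K] [Fintype K] [CharP K 2] (θ : ℝ), 0 < θ → CtrK K θ →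
    ∃ κ c : ℝ, 0 < κ ∧ 0 < c ∧ ∃ n₀ : ℕ, ∀ n : ℕ, n₀ ≤ n → ∀ h : ℕ, θ * n ≤ (h : ℝ) → h ≤ n →
      ∀ (g : K[X]) (σ : ℤ), g.Monic → g.natDegree = n → (σ = 1 ∨ σ = -1) →
        c * (Fintype.card K : ℝ) ^ h / n ≤
          ((Itv K n h g).filter (fun f => mob f = σ ∧ Sft ⌊κ * n⌋₊ f)).card

end Pool.Agent.H560.SI
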