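import Mathlib
import Pool.Agent.H560.SI.Stm
import Pool.Agent.H560.E2.WinA
import Pool.Agent.H604.FC.Stm

/-!
# SI, task WB: the window bound (helper560)
-/

set_option autoImplicit false

namespace Pool.Agent.H560.SI

open Polynomial
open scoped Classical
open Pool.Agent.H985.Chow (mob MD)
open Pool.Agent.H985.KP (PA mobg)
open Pool.Agent.H985.Chow.Asm
open Pool.Agent.H604.FC.Asm4
open Pool.Agent.H233.Par
open Pool.Agent.H985.FC (GP S_winF)
open Pool.Agent.H604.FC (S_win4)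

section alg

variable {K : Type} [Field K]

lemma split_gcd {s D : K[X]} (hs : s.Monic) (hsq : Squarefree s) :
    ∃ e h : K[X], s = e * h ∧ e.Monic ∧ h.Monic ∧ IsCoprime e h ∧ e ∣ D ∧
      ∀ P : K[X], Irreducible P → P ∣ h → ¬ P ∣ D := by
  have hg0 : EuclideanDomain.gcd s D ≠ 0 := by
    intro h
    rw [EuclideanDomain.gcd_eq_zero_iff] at h
    exact hs.ne_zero h.1
  obtain ⟨e, he⟩ : ∃ e, e = normalize (EuclideanDomain.gcd s D) := ⟨_, rfl⟩
  have hem : e.Monic := by rw [he]; exact monic_normalize hg0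
  have hes : e ∣ s := by rw [he, normalize_dvd_iff]; exact EuclideanDomain.gcd_dvd_left s D
  have heD : e ∣ D := by rw [he, normalize_dvd_iff]; exact EuclideanDomain.gcd_dvd_right s D
  obtain ⟨h, hh⟩ := hes
  have hhm : h.Monic := by
    rw [hh] at hs
    exact hem.of_mul_monic_left hs
  have hcop : IsCoprime e h := by
    rw [hh, squarefree_mul_iff] at hsq
    exact hsq.1.isCoprime
  refine ⟨e, h, hh, hem, hhm, hcop, heD, ?_⟩
  intro P hP hPh hPD
  have h1 : P ∣ e := by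
    rw [he, dvd_normalize_iff]
    exact EuclideanDomain.dvd_gcd (by rw [hh]; exact hPh.mul_left _) hPD
  exact not_dvd_of_cop hcop hP h1 hPh

lemma pair_cop {r : ℕ} {p : Fin r → K[X]} {h : K[X]} (hsq : Squarefree h) (hp : ∏ j, p j = h)
    (i j : Fin r) (hij : i ≠ j) : IsCoprime (p i) (p j) := by
  have h1 : p i * p j ∣ h := by
    rw [← hp, ← Finset.prod_pair hij]
    exact Finset.prod_dvd_prod_of_subset _ _ _ (Finset.subset_univ _)
  have h2 := hsq.squarefree_of_dvd h1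
  rw [squarefree_mul_iff] at h2
  exact h2.1.isCoprime

lemma PA_split [Fintype K] {r : ℕ} {p : Fin r → K[X]} {h : K[X]} (h0 : h ≠ 0) (hsq : Squarefree h)
    (hp : ∏ j, p j = h) (f : K[X] → ℝ) :
    ∏ᶠ P ∈ PA h, f P = ∏ j, ∏ᶠ P ∈ PA (p j), f P := by
  have h1 : PA h = ⋃ j, PA (p j) := by
    ext P
    rw [Set.mem_iUnion]
    constructor
    · rintro ⟨hPm, hPi, hPd⟩
      rw [← hp, hPi.prime.dvd_finsetProd_iff] at hPd
      obtain ⟨j, -, hj⟩ := hPd
      exact ⟨j, hPm, hPi, hj⟩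
    · rintro ⟨j, hPm, hPi, hPd⟩
      refine ⟨hPm, hPi, hPd.trans ?_⟩
      rw [← hp]
      exact Finset.dvd_prod_of_mem _ (Finset.mem_univ j)
  have hp0 : ∀ j, p j ≠ 0 := by
    intro j hj
    apply h0
    rw [← hp]
    exact Finset.prod_eq_zero (Finset.mem_univ j) hj
  rw [h1, finprod_mem_iUnion, finprod_eq_prod_of_fintype]
  · intro i j hij
    rw [Function.onFun, Set.disjoint_left]
    rintro P ⟨-, hPi, hPd⟩ ⟨-, -, hPd'⟩
    exact not_dvd_of_cop (pair_cop hsq hp i j hij) hPi hPd hPd'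
  · intro j
    exact PA_finite (p j) (hp0 j)

lemma mobg_one (F : K[X]) : mobg 1 F = mob F := by
  have := Pool.Agent.H560.E2.mobg_sq_mul (g := (1 : K[X])) (F := F) one_ne_zero
  rwa [one_pow, one_mul] at this

end alg

section der

variable {K : Type} [Field K] [Fintype K] [CharP K 2]

lemma der_snd {G s : K[X]} (h : derivative G = s ^ 2) : ∃ Z : K[X], G = Z ^ 2 + X * s ^ 2 := by
  obtain ⟨a, b, hab⟩ := G_surj (K := K) G
  have h2 : (2 : K[X]) = 0 := CharTwo.two_eq_zero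
  have hab' : G = a ^ 2 + X * b ^ 2 := by rw [← hab]; rfl
  have h1 : derivative G = b ^ 2 := by
    rw [hab']
    simp only [derivative_add, derivative_mul, derivative_X, derivative_pow, Nat.cast_ofNat,
      map_ofNat]
    simp [h2]
  have h4 : b = s := by
    have h5 : b ^ 2 = s ^ 2 := by rw [← h1, h]
    have h6 : (b + s) ^ 2 = 0 := by rw [CharTwo.add_sq, h5, CharTwo.add_self_eq_zero]
    have h7 : b + s = 0 := pow_eq_zero_iff (two_ne_zero) |>.1 h6
    rwa [CharTwo.add_eq_zero] at h7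
  exact ⟨a, by rw [hab', h4]⟩

omit [CharP K 2] in
lemma not_dvd_der {s P : K[X]} (hsq : Squarefree s) (hP : Irreducible P) (hPs : P ∣ s) :
    ¬ P ∣ derivative s := by
  intro h
  have h1 : s.Separable := PerfectField.separable_iff_squarefree.2 hsq
  exact not_dvd_of_cop h1 hP hPs h

end der

/-- **Task WB.** -/
theorem wb (hgrp : S_grp) (hwinF : S_winF) (hwin4 : S_win4) : S_wb := by
  intro K _ _ _ lam hlam
  obtain ⟨q, hqdef⟩ : ∃ q : ℝ, q = Fintype.card K := ⟨_, rfl⟩
  have hq1 : (1 : ℝ) < q := by rw [hqdef]; exact_mod_cast Fintype.one_lt_card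
  have hq0 : (0 : ℝ) < q := by linarith
  obtain ⟨R, hR⟩ := exists_nat_gt (4 / lam)
  rw [div_lt_iff₀ hlam] at hR
  obtain ⟨M, hM1, hM⟩ := hwin4 (R + 1) (R + 1)
  obtain ⟨κ₂, hκ₂⟩ : ∃ κ₂ : ℝ, κ₂ = lam / (8 * (6 * ((R + 1 : ℕ) : ℝ) + 3)) := ⟨_, rfl⟩
  have hκ₂0 : 0 < κ₂ := by rw [hκ₂]; positivity
  have hr0 : (0 : ℝ) < ((R + 1 : ℕ) : ℝ) := by positivity
  obtain ⟨A, hA1, hA⟩ := omega_bound K M hM1 (q ^ (κ₂ / 2 / ((R + 1 : ℕ) : ℝ)))
    (Real.one_lt_rpow hq1 (by positivity))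
  obtain ⟨m1, hm1⟩ := tend (A ^ (R + 1) * q) (q ^ (-(κ₂ / 4))) 1 (by positivity)
    (Real.rpow_lt_one_of_one_lt_of_neg hq1 (by linarith)) one_pos
  obtain ⟨c, hc⟩ : ∃ c : ℝ, c = κ₂ / (4 * 2 ^ (6 * (R + 1) + 1)) := ⟨_, rfl⟩
  have hc0 : 0 < c := by rw [hc]; positivity
  obtain ⟨m2, hm2⟩ := exists_nat_gt (40 / lam)
  refine ⟨lam / 40, c, by positivity, hc0, m1 + m2 + 1, ?_⟩
  intro n hn N u L L' m s F D hN hL hLn hLu hmm hmi hmd hs hsN hsq hsm hF hFn hder hD hDd hDL
  have hn0 : (0 : ℝ) < n := by exact_mod_cast (by omega : 0 < n)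
  have hL40 : 40 ≤ L := by
    have h1 : (m2 : ℝ) ≤ n := by exact_mod_cast (by omega : m2 ≤ n)
    have h2 : 40 / lam ≤ n := hm2.le.trans h1
    rw [div_le_iff₀ hlam] at h2
    have h3 : (40 : ℝ) ≤ L := by linarith
    exact_mod_cast h3
  have hD40 : 40 * D.natDegree ≤ L := by
    have h3 : 40 * (D.natDegree : ℝ) ≤ L := by linarith
    exact_mod_cast h3
  obtain ⟨L2, hL2⟩ : ∃ L2, L2 = L' - 4 * D.natDegree := ⟨_, rfl⟩
  have hL2L : 5 * D.natDegree + L2 = L := by omega
  have hL28 : 7 * L ≤ 8 * L2 := by omega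
  have hL28r : 7 * (L : ℝ) ≤ 8 * L2 := by exact_mod_cast hL28
  have hu1 : 1 ≤ u := by omega
  -- the splitting of `s`
  obtain ⟨e, h, hse, he, hh, hcop, heD, hhD⟩ := split_gcd (D := D) hs hsq
  have hed : e.natDegree ≤ D.natDegree := natDegree_le_of_dvd heD hD.ne_zero
  have hehN : e.natDegree + h.natDegree = N := by
    rw [← hsN, hse, he.natDegree_mul hh]
  have hhs : h ∣ s := by rw [hse]; exact dvd_mul_left _ _
  have hsqh : Squarefree h := hsq.squarefree_of_dvd hhs
  have hsmh : Smt (L / 8) h := fun P hPm hPi hP => hsm P hPm hPi (hP.trans hhs)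
  have hms : ¬ m ∣ s := by
    intro h1
    have := hsm m hmm hmi h1
    omega
  have hmF : ¬ m ∣ F := by
    intro h1
    apply hms
    have h2 : m ∣ s ^ 2 := by
      rw [← hder, derivative_mul]
      exact dvd_add (h1.mul_left _) (dvd_mul_right _ _)
    exact hmi.prime.dvd_of_dvd_pow h2
  obtain ⟨p, hpm, hpp, hpd, hp0⟩ := hgrp K L2 R (L / 8) h hh hsqh hsmh (by omega) (by omega) (by
    have h1 : 2 * (h.natDegree : ℝ) ≤ R * L2 := by
      have h2 : 2 * (h.natDegree : ℝ) ≤ 2 * n := by exact_mod_cast (by omega : 2 * h.natDegree ≤ 2 * n)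
      have h3 : (R : ℝ) * (7 / 8 * (lam * n)) ≤ R * L2 :=
        mul_le_mul_of_nonneg_left (by linarith) (Nat.cast_nonneg _)
      have h4 : 4 * (n : ℝ) ≤ (R * lam) * n := mul_le_mul_of_nonneg_right hR.le hn0.le
      nlinarith
    exact_mod_cast h1)
  obtain ⟨Z, hZ⟩ := der_snd hder
  -- the average over the windows
  rw [window_finsum]
  have hmem : ∀ w ∈ degreeLT K L2, D ^ 4 * w ∈ degreeLT K L' := by
    intro w hw
    apply mem_of_natDegree_lt
    by_cases hw0 : w = 0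
    · left
      rw [hw0, mul_zero]
    · right
      have h1 := natDegree_lt_of_mem hw hw0
      rw [natDegree_mul (pow_ne_zero _ hD.ne_zero) hw0, hD.natDegree_pow]
      omega
  have havg := avg L' L2 (D ^ 4) hmem (fun v => (mob (F + m * (D * v) ^ 2) : ℝ))
    (q ^ (-(c * n))) ?_
  · refine havg.trans ?_
    rw [← hqdef, ← Real.rpow_natCast, ← Real.rpow_add hq0]
    apply Real.rpow_le_rpow_of_exponent_le hq1.le
    have h1 : (L' : ℝ) ≤ L := by exact_mod_cast (by omega : L' ≤ L)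
    linarith
  intro v hv
  obtain ⟨Z', hZ'⟩ : ∃ Z', Z' = Z + m * D * v := ⟨_, rfl⟩
  obtain ⟨E, hE⟩ : ∃ E, E = m * D ^ 5 := ⟨_, rfl⟩
  have hE0 : E ≠ 0 := by
    rw [hE]
    exact mul_ne_zero hmm.ne_zero (pow_ne_zero _ hD.ne_zero)
  have hEd : E.natDegree = u + 5 * D.natDegree := by
    rw [hE, hmm.natDegree_mul (hD.pow 5), hD.natDegree_pow, hmd]
  have key : ∀ w : K[X], (Z' + E * w) ^ 2 + X * (C 1 * (e * h)) ^ 2 =
      m * (F + m * (D * (v + D ^ 4 * w)) ^ 2) := by
    intro w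
    have h1 : Z' + E * w = Z + m * (D * (v + D ^ 4 * w)) := by
      rw [hZ', hE]
      ring
    rw [h1, CharTwo.add_sq, map_one, one_mul, ← hse, mul_add m F, hZ]
    ring
  have hmon : (Z' ^ 2 + X * (C 1 * (e * h)) ^ 2).Monic ∧
      (Z' ^ 2 + X * (C 1 * (e * h)) ^ 2).natDegree = n + u := by
    have h1 := key 0
    rw [mul_zero, mul_zero, add_zero, add_zero] at h1
    rw [h1]
    have h2 : (m * (D * v) ^ 2).degree < F.degree := by
      by_cases hv0 : v = 0
      · rw [hv0, mul_zero, zero_pow two_ne_zero, mul_zero, degree_zero]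
        exact bot_lt_iff_ne_bot.2 (degree_ne_bot.2 hF.ne_zero)
      · apply degree_lt_degree
        have h3 := natDegree_lt_of_mem hv hv0
        rw [hmm.natDegree_mul' (pow_ne_zero 2 (mul_ne_zero hD.ne_zero hv0)), natDegree_pow,
          hD.natDegree_mul' hv0, hmd, hFn]
        omega
    have h3 : (F + m * (D * v) ^ 2).Monic := hF.add_of_left h2
    refine ⟨hmm.mul h3, ?_⟩
    rw [hmm.natDegree_mul h3, natDegree_add_eq_left_of_degree_lt h2, hmd, hFn]
    omega
  have hEh : IsCoprime E h := by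
    apply cop_of (fun h1 => hE0 h1.1)
    intro P hPm hPi hPE hPh
    rw [hE] at hPE
    rcases hPi.prime.dvd_or_dvd hPE with h1 | h1
    · have h2 : P = m := eq_of_monic_of_associated hPm hmm (hPi.associated_of_dvd hmi h1)
      apply hms
      rw [← h2]
      exact hPh.trans hhs
    · exact hhD P hPi hPh (hPi.prime.dvd_of_dvd_pow h1)
  obtain ⟨η, hη, hηw⟩ := hwinF K (n + u) L2 1 Z' e h E 1 one_ne_zero he hh hcop hsqh monic_one
    (one_dvd _) hE0 (by rw [hE]; exact (pow_dvd_pow_of_dvd heD 5).mul_left _) hEh (by omega)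
    hmon.1 hmon.2 (by
      rw [he.natDegree_mul hh, hehN, hEd]
      omega)
  -- the local factors
  obtain ⟨f, hf⟩ : ∃ f : K[X] → ℝ, f = fun w => ∏ᶠ P ∈ PA h, GP (C 1 * (e * h)) 1 P (Z' + E * w) :=
    ⟨_, rfl⟩
  have hmobf : ∀ w : degreeLT K L2, (mob (F + m * (D * (v + D ^ 4 * (w : K[X]))) ^ 2) : ℝ) =
      - (η * f w) := by
    intro w
    have h1 := hηw w (mem_degreeLT.1 w.2)
    rw [key, mobg_one] at h1
    have h2 : ¬ m ∣ F + m * (D * (v + D ^ 4 * (w : K[X]))) ^ 2 := by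
      intro h3
      exact hmF ((dvd_add_left (dvd_mul_right _ _)).1 h3)
    have h3 : F + m * (D * (v + D ^ 4 * (w : K[X]))) ^ 2 ≠ 0 := by
      intro h4
      exact h2 (by rw [h4]; exact dvd_zero _)
    rw [Pool.Agent.H560.E2.mob_prime_mul hmi h3 h2] at h1
    push_cast at h1
    rw [hf]
    simp only
    linarith
  have hle : |∑ w : degreeLT K L2, (fun v : K[X] => (mob (F + m * (D * v) ^ 2) : ℝ))
      (v + D ^ 4 * (w : K[X]))| ≤ |∑ w : degreeLT K L2, f w| := by
    have h1 : ∑ w : degreeLT K L2, (fun v : K[X] => (mob (F + m * (D * v) ^ 2) : ℝ))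
        (v + D ^ 4 * (w : K[X])) = - (η * ∑ w : degreeLT K L2, f w) := by
      rw [Finset.mul_sum, ← Finset.sum_neg_distrib]
      exact Finset.sum_congr rfl fun w _ => hmobf w
    rw [h1, abs_neg, abs_mul]
    exact mul_le_of_le_one_left (abs_nonneg _) hη
  refine hle.trans ?_
  obtain ⟨h', hh'⟩ : ∃ h' : Fin (R + 1) → K[X], h' = fun j => if j = 0 then 1 else p j := ⟨_, rfl⟩
  obtain ⟨h'', hh''⟩ : ∃ h'' : Fin (R + 1) → K[X], h'' = fun j => if j = 0 then p j else 1 :=
    ⟨_, rfl⟩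
  have hmul : ∀ j, h' j * h'' j = p j := by
    intro j
    rw [hh', hh'']
    by_cases hj : j = 0
    · simp only [if_pos hj, one_mul]
    · simp only [if_neg hj, mul_one]
  have hpdvd : ∀ j, p j ∣ h := by
    intro j
    rw [← hpp]
    exact Finset.dvd_prod_of_mem _ (Finset.mem_univ j)
  have hwb := hM K L2 (L2 / 4) (L2 / 4 / (6 * (R + 1) + 3)) E (fun _ => C 1 * (e * h)) h' h''
    (fun _ => Z') (fun _ => 1) id 0 1 ?_ ?_ ⟨0, rfl⟩ ?_ ?_ ?_
  · simp only [id, hmul, AddChar.one_apply, one_mul] at hwb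
    have h1 : ∀ w : K[X], ∏ j : Fin (R + 1), ∏ᶠ P ∈ PA (p j), GP (C 1 * (e * h)) 1 P (Z' + E * w) =
        f w := by
      intro w
      rw [hf]
      exact (PA_split hh.ne_zero hsqh hpp _).symm
    simp only [map_one, one_mul] at h1 hwb
    simp only [h1] at hwb
    rw [window_finsum, ← hqdef] at hwb
    have hfin := fin_num (k := R + 1) (r := R + 1) (n := n) (L := L2) hq1 le_rfl hκ₂0 hA1
      (abs_nonneg _) ?_ ?_ (hm1 n (by omega)) hc hwb
    · refine hfin.trans (le_of_eq ?_)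
      rw [sub_eq_add_neg, Real.rpow_add hq0, Real.rpow_natCast, ← hqdef]
    · -- the bound for `T`
      have h1 : L2 / 4 + 1 ≤ (6 * (R + 1) + 3) * (L2 / 4 / (6 * (R + 1) + 3) + 1) :=
        Nat.lt_mul_div_succ _ (by omega)
      have h2 : L2 ≤ 4 * (L2 / 4 + 1) := by omega
      have h3 : (L2 : ℝ) ≤ 4 * ((6 * ((R + 1 : ℕ) : ℝ) + 3) *
          (((L2 / 4 / (6 * (R + 1) + 3) : ℕ) : ℝ) + 1)) := by
        have h4 : L2 ≤ 4 * ((6 * (R + 1) + 3) * (L2 / 4 / (6 * (R + 1) + 3) + 1)) := by omega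
        exact_mod_cast h4
      rw [hκ₂, div_mul_eq_mul_div, div_le_iff₀ (by positivity)]
      have h5 : lam * n ≤ 8 / 7 * L2 := by linarith
      have h6 : (0 : ℝ) ≤ L2 := Nat.cast_nonneg _
      linarith
    · -- the number of primes
      have hη1 : (1 : ℝ) ≤ q ^ (κ₂ / 2 / ((R + 1 : ℕ) : ℝ)) := Real.one_le_rpow hq1.le (by positivity)
      calc M ^ (∑ l, (PA (p l)).ncard) = ∏ l, M ^ (PA (p l)).ncard := by
            rw [Finset.prod_pow_eq_pow_sum]
        _ ≤ ∏ _l : Fin (R + 1), (A * (q ^ (κ₂ / 2 / ((R + 1 : ℕ) : ℝ))) ^ n) := by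
            apply Finset.prod_le_prod
            · intro l _
              have : 0 ≤ M := by linarith
              positivity
            · intro l _
              refine hA (p l) (hpm l).ne_zero n ?_
              have h1 := natDegree_le_of_dvd (hpdvd l) hh.ne_zero
              omega
        _ = (A * (q ^ (κ₂ / 2 / ((R + 1 : ℕ) : ℝ))) ^ n) ^ (R + 1) := by
            rw [Finset.prod_const, Finset.card_univ, Fintype.card_fin]
        _ = A ^ (R + 1) * (q ^ (κ₂ / 2)) ^ n := by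
            rw [mul_pow, ← pow_mul, mul_comm n (R + 1), pow_mul,
              ← Real.rpow_natCast (q ^ (κ₂ / 2 / ((R + 1 : ℕ) : ℝ))) (R + 1), ← Real.rpow_mul hq0.le,
              div_mul_cancel₀ _ hr0.ne']
  · intro j
    have h1 : p j ∣ s := (hpdvd j).trans hhs
    refine ⟨?_, ?_, ?_, ?_, ?_, ?_, ?_⟩
    · rw [hh']
      simp only
      split_ifs
      · exact monic_one
      · exact hpm j
    · rw [hh'']
      simp only
      split_ifs
      · exact hpm j
      · exact monic_one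
    · rw [hmul]
      exact hsqh.squarefree_of_dvd (hpdvd j)
    · rw [hmul]
      exact hEh.of_isCoprime_of_dvd_right (hpdvd j)
    · rw [hh']
      simp only
      split_ifs
      · rw [natDegree_one]
        omega
      · exact hpd j
    · rw [hh'']
      simp only
      split_ifs
      · exact hpd j
      · rw [natDegree_one]
        omega
    · rintro P ⟨hPm, hPi, hPd⟩
      rw [hmul] at hPd
      rw [map_one, one_mul, ← hse]
      exact not_dvd_der hsq hPi (hPd.trans h1)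
  · intro i j hij
    rw [hmul, hmul]
    exact pair_cop hsqh hpp i j hij
  · intro i j hij hcc
    exact absurd hcc hij
  · rw [hh'']
    simp only [if_true]
    exact hp0
  · rw [mul_comm]
    exact Nat.div_mul_le_self _ _

end Pool.Agent.H560.SI
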