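import Mathlib
import Pool.Agent.H560.SI.StmB
import Pool.Agent.H249.SI.Fib

/-!
# SI, task DEG: few multiples of `g` have a derivative of small degree (helper560)
-/

set_option autoImplicit false

namespace Pool.Agent.H560.SI

open Polynomial
open scoped Classical
open Pool.Agent.H985.Chow.Asm
open Pool.Agent.H249.SI (deriv_G exists_dec sq_inj')

section

variable {K : Type} [Field K]

lemma lt_of_degree {u : ℕ} {μ : K[X]} (h : μ.degree < (u : WithBot ℕ)) (i : ℕ) (hi : u ≤ i) :
    μ.coeff i = 0 :=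
  coeff_eq_zero_of_degree_lt (lt_of_lt_of_le h (by exact_mod_cast hi))

lemma parts [CharP K 2] {u : ℕ} {μ a b : K[X]} (h : μ.degree < (u : WithBot ℕ))
    (he : μ = a ^ 2 + X * b ^ 2) :
    a ∈ degreeLT K ((u + 1) / 2) ∧ b ∈ degreeLT K ((u + 1) / 2) := by
  constructor
  · rw [mem_deg]
    intro i hi
    have h1 : μ.coeff (2 * i) = (a.coeff i) ^ 2 := by
      rw [he]
      exact coeff_G_even a b i
    rw [lt_of_degree h _ (by omega)] at h1
    exact (pow_eq_zero_iff (by norm_num)).1 h1.symm
  · rw [mem_deg]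
    intro i hi
    have h1 : μ.coeff (2 * i + 1) = (b.coeff i) ^ 2 := by
      rw [he]
      exact coeff_G_odd a b i
    rw [lt_of_degree h _ (by omega)] at h1
    exact (pow_eq_zero_iff (by norm_num)).1 h1.symm

lemma ncard_deg [Fintype K] (m : ℕ) :
    ((degreeLT K m : Submodule K K[X]) : Set K[X]).ncard = Fintype.card K ^ m := by
  have h1 : ((degreeLT K m : Submodule K K[X]) : Set K[X]).ncard = Nat.card (degreeLT K m) :=
    (Nat.card_coe_set_eq _).symm
  rw [h1, Nat.card_eq_fintype_card, card_deg]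

lemma fin_deg [Fintype K] (m : ℕ) :
    ((degreeLT K m : Submodule K K[X]) : Set K[X]).Finite := by
  have h1 : Finite (degreeLT K m) := inferInstance
  exact Set.finite_coe_iff.1 h1

/-- the product rule for two members -/
lemma wronsk [CharP K 2] {n u H : ℕ} {g μ ν : K[X]} (hg : g.Monic) (hgn : g.natDegree = n)
    (hn : u + 2 * H ≤ n) (h1 : μ.degree < (u : WithBot ℕ)) (h2 : ν.degree < (u : WithBot ℕ))
    (h3 : (derivative (μ * g)).degree < ((2 * H : ℕ) : WithBot ℕ))
    (h4 : (derivative (ν * g)).degree < ((2 * H : ℕ) : WithBot ℕ)) :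
    ν * derivative μ = μ * derivative ν := by
  by_contra hne
  have hne' : ν * derivative μ - μ * derivative ν ≠ 0 := sub_ne_zero.2 hne
  have h5 : ν * derivative (μ * g) - μ * derivative (ν * g) =
      (ν * derivative μ - μ * derivative ν) * g := by
    rw [derivative_mul, derivative_mul]
    ring
  have key : ∀ x y : K[X], x.degree < (u : WithBot ℕ) → y.degree < ((2 * H : ℕ) : WithBot ℕ) →
      (x * y).degree < (n : WithBot ℕ) := by
    intro x y hx hy
    by_cases hx0 : x = 0
    · rw [hx0, zero_mul, degree_zero]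
      exact WithBot.bot_lt_coe _
    by_cases hy0 : y = 0
    · rw [hy0, mul_zero, degree_zero]
      exact WithBot.bot_lt_coe _
    rw [degree_eq_natDegree hx0] at hx
    rw [degree_eq_natDegree hy0] at hy
    have hx1 : x.natDegree < u := by exact_mod_cast hx
    have hy1 : y.natDegree < 2 * H := by exact_mod_cast hy
    rw [degree_eq_natDegree (mul_ne_zero hx0 hy0), natDegree_mul hx0 hy0]
    exact_mod_cast (by omega : x.natDegree + y.natDegree < n)
  have h6 : (ν * derivative (μ * g) - μ * derivative (ν * g)).degree < (n : WithBot ℕ) :=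
    lt_of_le_of_lt (degree_sub_le _ _) (max_lt (key _ _ h2 h3) (key _ _ h1 h4))
  rw [h5, degree_mul, degree_eq_natDegree hne', degree_eq_natDegree hg.ne_zero, hgn] at h6
  have h7 : (ν * derivative μ - μ * derivative ν).natDegree + n < n := by exact_mod_cast h6
  omega

end

/-- **Task DEG.** -/
theorem deg : S_deg := by
  intro K _ _ _ n u H g hg hgn hn
  choose A B hAB using fun μ : K[X] => exists_dec μ
  have hB : ∀ μ, derivative μ = B μ ^ 2 := by
    intro μ
    conv_lhs => rw [hAB μ]
    exact deriv_G _ _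
  obtain ⟨Lam, hLam⟩ : ∃ Lam : Set K[X], Lam = {μ : K[X] | μ.degree < (u : WithBot ℕ) ∧
    (derivative (μ * g)).degree < ((2 * H : ℕ) : WithBot ℕ)} := ⟨_, rfl⟩
  rw [← hLam]
  have hfin := fin_deg (K := K) ((u + 1) / 2)
  by_cases h0 : ∃ ν ∈ Lam, ν ≠ 0
  · obtain ⟨ν, hν, hν0⟩ := h0
    rw [hLam] at hν
    rw [← ncard_deg (K := K) ((u + 1) / 2)]
    by_cases hd : derivative ν = 0
    · -- all members are squares
      have hsq : ∀ μ ∈ Lam, B μ = 0 := by
        intro μ hμ
        rw [hLam] at hμ
        have h1 := wronsk hg hgn hn hμ.1 hν.1 hμ.2 hν.2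
        rw [hd, mul_zero] at h1
        have h2 := (mul_eq_zero.1 h1).resolve_left hν0
        rw [hB] at h2
        exact (pow_eq_zero_iff two_ne_zero).1 h2
      refine Set.ncard_le_ncard_of_injOn A ?_ ?_ hfin
      · intro μ hμ
        have hμ' := hμ
        rw [hLam] at hμ'
        exact (parts hμ'.1 (hAB μ)).1
      · intro μ hμ μ' hμ' he
        rw [hAB μ, hAB μ', hsq μ hμ, hsq μ' hμ', he]
    · -- a member is determined by its derivative
      refine Set.ncard_le_ncard_of_injOn B ?_ ?_ hfin
      · intro μ hμ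
        have hμ' := hμ
        rw [hLam] at hμ'
        exact (parts hμ'.1 (hAB μ)).2
      · intro μ hμ μ' hμ' he
        rw [hLam] at hμ hμ'
        have h1 := wronsk hg hgn hn hμ.1 hν.1 hμ.2 hν.2
        have h2 := wronsk hg hgn hn hμ'.1 hν.1 hμ'.2 hν.2
        rw [hB μ, he, ← hB μ', h2] at h1
        exact (mul_right_cancel₀ hd h1).symm
  · push Not at h0
    have h1 : Lam ⊆ {0} := fun μ hμ => h0 μ hμ
    calc Lam.ncard ≤ ({0} : Set K[X]).ncard := Set.ncard_le_ncard h1 (Set.finite_singleton 0)
      _ = 1 := Set.ncard_singleton 0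
      _ ≤ _ := Nat.one_le_pow _ _ Fintype.card_pos

end Pool.Agent.H560.SI
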