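import Mathlib
import Pool.Agent.H560.SI.Deg

/-!
# SI, task CTR: for every centre some `m` has many smooth `s`, exponent `1 / 4` (helper560)
-/

set_option autoImplicit false

namespace Pool.Agent.H560.SI

open Polynomial
open scoped Classical
open Pool.Agent.H985.Chow.Asm
open Pool.Agent.H249.SI (dq dq_sq dq_sub dq_monic surj)
open Pool.Agent.H694.Typ (Mn Irn PU mem_Irn mem_Mn wt irn_wt_ge)

section

variable {K : Type} [Field K] [Fintype K] [CharP K 2]

/-- the fibre over `s` -/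
lemma fib_of {n u L : ℕ} {m g s : K[X]} (hm : m.Monic) (hi : Irreducible m) (hu : m.natDegree = u)
    (hu1 : 1 ≤ u) (hn : u + 2 * L ≤ n) (hg : g.Monic) (hgd : g.natDegree = n)
    (hs : (s - dq (m * g)).degree < ((u + L : ℕ) : WithBot ℕ)) :
    ∃ F ∈ Itv K n (u + 2 * L) g, derivative (m * F) = s ^ 2 := by
  obtain ⟨r, hr, hrw⟩ := surj hm hi hu hu1 _ hs
  have hrn : r.degree < g.degree := by
    rw [degree_eq_natDegree hg.ne_zero, hgd]
    exact lt_of_lt_of_le hr (by exact_mod_cast hn)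
  refine ⟨g + r, ?_, ?_⟩
  · unfold Itv
    rw [Finset.mem_filter, mem_Mn]
    refine ⟨⟨hg.add_of_left hrn, ?_⟩, ?_⟩
    · rw [natDegree_add_eq_left_of_degree_lt hrn, hgd]
    · rw [add_sub_cancel_left]
      exact hr
  · rw [mul_add, derivative_add, ← dq_sq, ← dq_sq, hrw, ← CharTwo.add_sq]
    rw [add_sub_cancel]

/-- the number of pairs -/
lemma prs_le {n u H : ℕ} {g : K[X]} (hg : g.Monic) (hgn : g.natDegree = n) (hu1 : 1 ≤ u)
    (hn : u + 2 * H ≤ n) :
    Prs (Irn K u) (fun m => dq (m * g)) H ≤ (Irn K u).card * Fintype.card K ^ ((u + 1) / 2) := by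
  unfold Prs
  rw [Finset.card_filter, Finset.sum_product, ← smul_eq_mul, ← Finset.sum_const]
  refine Finset.sum_le_sum fun m hm => ?_
  rw [← Finset.card_filter]
  refine le_trans ?_ (deg K n u H g hg hgn hn)
  rw [← Set.ncard_coe_finset]
  have hfin : {μ : K[X] | μ.degree < (u : WithBot ℕ) ∧
      (derivative (μ * g)).degree < ((2 * H : ℕ) : WithBot ℕ)}.Finite := by
    refine (fin_deg (K := K) u).subset ?_
    intro μ hμ
    exact mem_degreeLT.2 hμ.1
  refine Set.ncard_le_ncard_of_injOn (fun m' => m - m') ?_ ?_ hfin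
  · intro m' hm'
    rw [Finset.mem_coe, Finset.mem_filter] at hm'
    obtain ⟨hm', hdm⟩ := hm'
    simp only at hdm
    rw [mem_Irn] at hm hm'
    refine ⟨?_, ?_⟩
    · have h1 : (m - m').degree < m.degree := by
        apply degree_sub_lt_left
        · rw [degree_eq_natDegree hm.1.ne_zero, degree_eq_natDegree hm'.1.ne_zero, hm.2.1, hm'.2.1]
        · exact hm.1.ne_zero
        · rw [hm.1.leadingCoeff, hm'.1.leadingCoeff]
      rw [degree_eq_natDegree hm.1.ne_zero, hm.2.1] at h1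
      exact h1
    · show (derivative ((m - m') * g)).degree < ((2 * H : ℕ) : WithBot ℕ)
      rw [sub_mul, ← dq_sq, dq_sub, degree_pow]
      by_cases h0 : dq (m * g) - dq (m' * g) = 0
      · rw [h0, degree_zero]
        exact WithBot.bot_lt_coe _
      · rw [degree_eq_natDegree h0] at hdm ⊢
        have h1 : (dq (m * g) - dq (m' * g)).natDegree < H := by exact_mod_cast hdm
        rw [nsmul_eq_mul]
        exact_mod_cast (by omega : 2 * (dq (m * g) - dq (m' * g)).natDegree < 2 * H)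
  · intro x _ y _ h
    simpa using h

end

/-- **Task CTR.** -/
theorem ctr (hs : S_smA) : S_ctr := by
  intro K _ _ _ θ hθ1 hθ2
  obtain ⟨q, hqdef⟩ : ∃ q : ℝ, q = Fintype.card K := ⟨_, rfl⟩
  have hq1 : (1 : ℝ) < q := by rw [hqdef]; exact_mod_cast Fintype.one_lt_card
  have hq0 : (0 : ℝ) < q := by linarith
  obtain ⟨ε, hε⟩ : ∃ ε : ℝ, ε = θ - 1 / 4 := ⟨_, rfl⟩
  have hε0 : 0 < ε := by rw [hε]; linarith
  have hε12 : ε ≤ 1 / 12 := by rw [hε]; linarith
  obtain ⟨lam, hlam⟩ : ∃ lam : ℝ, lam = ε / 8 := ⟨_, rfl⟩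
  have hlam0 : 0 < lam := by rw [hlam]; positivity
  obtain ⟨c, hc, n₁, hc1⟩ := hs K (lam / 10) ε (by positivity) hε0
  rw [← hqdef] at hc1
  obtain ⟨n₂, hn₂⟩ : ∃ n₂ : ℕ, ∀ n : ℕ, n₂ ≤ n → (2 : ℝ) * n ≤ q ^ (ε / 2 * n) := by
    have h1 : Filter.Tendsto (fun n : ℕ => (n : ℝ) * (q ^ (-(ε / 2))) ^ n) Filter.atTop (nhds 0) :=
      tendsto_self_mul_const_pow_of_lt_one (by positivity)
        (Real.rpow_lt_one_of_one_lt_of_neg hq1 (by linarith))
    have h2 := h1.eventually (gt_mem_nhds (show (0 : ℝ) < 1 / 2 by norm_num))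
    rw [Filter.eventually_atTop] at h2
    obtain ⟨n₂, h2⟩ := h2
    refine ⟨n₂, fun n hn => ?_⟩
    have h3 := (h2 n hn).le
    have h4 : (q ^ (-(ε / 2))) ^ n * q ^ (ε / 2 * n) = 1 := by
      rw [← Real.rpow_natCast, ← Real.rpow_mul hq0.le, ← Real.rpow_add hq0]
      have : -(ε / 2) * (n : ℝ) + ε / 2 * n = 0 := by ring
      rw [this, Real.rpow_zero]
    have h5 : 0 < q ^ (ε / 2 * (n : ℝ)) := by positivity
    calc (2 : ℝ) * n = 2 * (n * ((q ^ (-(ε / 2))) ^ n * q ^ (ε / 2 * (n : ℝ)))) := by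
          rw [h4, mul_one]
      _ = 2 * (n * (q ^ (-(ε / 2))) ^ n) * q ^ (ε / 2 * (n : ℝ)) := by ring
      _ ≤ 2 * (1 / 2) * q ^ (ε / 2 * (n : ℝ)) := by
          apply mul_le_mul_of_nonneg_right _ h5.le
          exact mul_le_mul_of_nonneg_left h3 (by norm_num)
      _ = q ^ (ε / 2 * (n : ℝ)) := by ring
  obtain ⟨n₃, hn₃⟩ := exists_nat_gt (1000 / ε)
  refine ⟨lam, c, hlam0, hc, 2 * n₁ + n₂ + n₃ + 1, ?_⟩
  intro n hn
  have hn0 : (0 : ℝ) < n := by exact_mod_cast (by omega : 0 < n)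
  have hεn : 1000 ≤ ε * n := by
    have h1 : (n₃ : ℝ) ≤ n := by exact_mod_cast (by omega : n₃ ≤ n)
    have h2 : 1000 / ε ≤ n := hn₃.le.trans h1
    rw [div_le_iff₀ hε0] at h2
    linarith
  obtain ⟨h₀, hh1, hh2, hpar⟩ : ∃ h₀ : ℕ, (h₀ : ℝ) ≤ θ * n ∧ θ * n - 2 ≤ h₀ ∧ (n + h₀) % 2 = 1 := by
    have h1 : (0 : ℝ) ≤ θ * n := by positivity
    have h2 := Nat.floor_le h1
    have h3 := Nat.lt_floor_add_one (θ * (n : ℝ))
    by_cases hp : (n + ⌊θ * (n : ℝ)⌋₊) % 2 = 1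
    · exact ⟨⌊θ * (n : ℝ)⌋₊, h2, by linarith, hp⟩
    · have h4 : 1 ≤ ⌊θ * (n : ℝ)⌋₊ := by
        apply Nat.le_floor
        push_cast
        nlinarith
      have h5 : (((⌊θ * (n : ℝ)⌋₊ - 1 : ℕ) : ℝ)) = (⌊θ * (n : ℝ)⌋₊ : ℝ) - 1 := by
        rw [Nat.cast_sub h4, Nat.cast_one]
      refine ⟨⌊θ * (n : ℝ)⌋₊ - 1, ?_, ?_, ?_⟩
      · rw [h5]; linarith
      · rw [h5]; linarith
      · omega
  obtain ⟨L, hL⟩ : ∃ L : ℕ, L = ⌈lam * (n : ℝ)⌉₊ := ⟨_, rfl⟩
  have hL1 : lam * n ≤ L := by rw [hL]; exact Nat.le_ceil _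
  have hL2 : (L : ℝ) ≤ lam * n + 1 := by
    rw [hL]
    exact (Nat.ceil_lt_add_one (by positivity)).le
  have hθn : θ * n = n / 4 + ε * n := by rw [hε]; ring
  have hθn3 : θ * n ≤ 1 / 3 * n := mul_le_mul_of_nonneg_right hθ2 hn0.le
  have hlamn : lam * n = ε * n / 8 := by rw [hlam]; ring
  have hεn12 : ε * n ≤ 1 / 12 * n := mul_le_mul_of_nonneg_right hε12 hn0.le
  have h2L : 2 * L ≤ h₀ := by
    have h1 : 2 * (L : ℝ) ≤ h₀ := by linarith
    exact_mod_cast h1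
  obtain ⟨u, hu⟩ : ∃ u : ℕ, u + 2 * L = h₀ := ⟨h₀ - 2 * L, by omega⟩
  have hur : (u : ℝ) + 2 * L = h₀ := by exact_mod_cast hu
  obtain ⟨N, hN⟩ : ∃ N : ℕ, n + u = 2 * N + 1 := ⟨(n + u) / 2, by omega⟩
  have hNr : (n : ℝ) + u = 2 * N + 1 := by exact_mod_cast hN
  have hun : (n : ℝ) / 4 ≤ u := by linarith
  have hun' : n ≤ 4 * u := by
    have h1 : (n : ℝ) ≤ 4 * u := by linarith
    exact_mod_cast h1
  have h3h : 3 * h₀ ≤ n := by
    have h1 : 3 * (h₀ : ℝ) ≤ n := by linarith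
    exact_mod_cast h1
  have h12L : 12 * L ≤ n := by
    have h1 : 12 * (L : ℝ) ≤ n := by linarith
    exact_mod_cast h1
  have hun0 : (u : ℝ) ≤ n / 3 := by
    have h1 : 3 * (u : ℝ) ≤ n := by exact_mod_cast (by omega : 3 * u ≤ n)
    linarith
  refine ⟨N, u, L, hN, hL1, by omega, ?_, by omega, ?_⟩
  · push_cast
    linarith
  intro g hg hgn
  have hu1 : 1 ≤ u := by omega
  have hI : (Irn K u).Nonempty ∧ q ^ u ≤ 2 * u * ((Irn K u).card : ℝ) := by
    have h1 := irn_wt_ge (k := K) (j := u) (by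
      have : (1000 : ℝ) ≤ n := by linarith
      have h2 : 1000 ≤ n := by exact_mod_cast this
      omega)
    have h2 : ∑ P ∈ Irn K u, wt K P.natDegree = ((Irn K u).card : ℝ) * wt K u := by
      rw [Finset.sum_congr rfl (fun P hP => by rw [(mem_Irn.1 hP).2.1]), Finset.sum_const,
        nsmul_eq_mul]
    rw [h2] at h1
    have hu0 : (0 : ℝ) < u := by exact_mod_cast hu1
    have h3 : wt K u = 1 / q ^ u := by
      rw [hqdef, one_div]
      rfl
    have hqu : 0 < q ^ u := by positivity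
    rw [h3, mul_one_div, div_le_div_iff₀ (by positivity) hqu, one_mul] at h1
    refine ⟨?_, by linarith⟩
    rw [Finset.nonempty_iff_ne_empty]
    intro h4
    rw [h4, Finset.card_empty, Nat.cast_zero, zero_mul] at h1
    linarith
  obtain ⟨hIne, hIc⟩ := hI
  have hS : ∀ m ∈ Irn K u, (dq (m * g)).Monic ∧ (dq (m * g)).natDegree = N := by
    intro m hm
    rw [mem_Irn] at hm
    apply dq_monic (hm.1.mul hg)
    rw [hm.1.natDegree_mul hg, hm.2.1, hgn]
    omega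
  have hprs := prs_le (K := K) (u := u) (H := u + L) hg hgn hu1 (by omega)
  have hI0 : (0 : ℝ) < (Irn K u).card := by
    exact_mod_cast Finset.card_pos.2 hIne
  obtain ⟨m, hm, hcm⟩ := hc1 N (by omega) (u + L) (L / 8) K[X] (Irn K u) (fun m => dq (m * g)) hIne
    (by
      push_cast
      have h1 : (N : ℝ) ≤ 2 / 3 * n := by linarith
      have h2 : ε * (N : ℝ) ≤ ε * (2 / 3 * n) := mul_le_mul_of_nonneg_left h1 hε0.le
      have h3 : (0 : ℝ) ≤ L := Nat.cast_nonneg _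
      linarith)
    (by omega)
    (by
      have h1 : (N : ℝ) ≤ 2 / 3 * n := by linarith
      have h2 : lam / 10 * (N : ℝ) ≤ lam / 10 * (2 / 3 * n) :=
        mul_le_mul_of_nonneg_left h1 (by positivity)
      have h3 : (L : ℝ) ≤ 8 * ((L / 8 : ℕ) : ℝ) + 7 := by exact_mod_cast (by omega : L ≤ 8 * (L / 8) + 7)
      linarith)
    hS
    (by
      have h1 : (Prs (Irn K u) (fun m => dq (m * g)) (u + L) : ℝ) ≤
          (Irn K u).card * q ^ ((u + 1) / 2) := by
        rw [hqdef]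
        exact_mod_cast hprs
      have h2 : q ^ u ≤ q ^ (ε / 2 * (n : ℝ)) * ((Irn K u).card : ℝ) := by
        refine hIc.trans (mul_le_mul_of_nonneg_right ?_ hI0.le)
        refine le_trans ?_ (hn₂ n (by omega))
        linarith
      have h3 : (q ^ ((u + 1) / 2) : ℝ) ≤ q ^ (((u : ℝ) + 1) / 2) := by
        rw [← Real.rpow_natCast]
        apply Real.rpow_le_rpow_of_exponent_le hq1.le
        have h4 : 2 * (((u + 1) / 2 : ℕ) : ℝ) ≤ (u : ℝ) + 1 := by
          exact_mod_cast (by omega : 2 * ((u + 1) / 2) ≤ u + 1)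
        linarith
      have h5 : q ^ ((1 + ε) * (N : ℝ)) * q ^ (((u : ℝ) + 1) / 2) * q ^ (ε / 2 * (n : ℝ)) ≤
          q ^ u * q ^ (2 * (u + L)) := by
        rw [← Real.rpow_natCast q u, ← Real.rpow_natCast q (2 * (u + L)), ← Real.rpow_add hq0,
          ← Real.rpow_add hq0, ← Real.rpow_add hq0]
        apply Real.rpow_le_rpow_of_exponent_le hq1.le
        push_cast
        have h6 : (N : ℝ) ≤ 2 / 3 * n := by linarith
        have h7 : ε * (N : ℝ) ≤ ε * (2 / 3 * n) := mul_le_mul_of_nonneg_left h6 hε0.le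
        linarith
      have h8 : 0 < q ^ (ε / 2 * (n : ℝ)) := by positivity
      have h9 : 0 < q ^ ((1 + ε) * (N : ℝ)) := by positivity
      refine le_of_mul_le_mul_right ?_ h8
      calc q ^ ((1 + ε) * (N : ℝ)) * (Prs (Irn K u) (fun m => dq (m * g)) (u + L) : ℝ) *
            q ^ (ε / 2 * (n : ℝ))
          ≤ q ^ ((1 + ε) * (N : ℝ)) * ((Irn K u).card * q ^ (((u : ℝ) + 1) / 2)) *
            q ^ (ε / 2 * (n : ℝ)) := by
              apply mul_le_mul_of_nonneg_right _ h8.le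
              apply mul_le_mul_of_nonneg_left _ h9.le
              exact h1.trans (mul_le_mul_of_nonneg_left h3 hI0.le)
        _ = (Irn K u).card * (q ^ ((1 + ε) * (N : ℝ)) * q ^ (((u : ℝ) + 1) / 2) *
              q ^ (ε / 2 * (n : ℝ))) := by ring
        _ ≤ (Irn K u).card * (q ^ u * q ^ (2 * (u + L))) := mul_le_mul_of_nonneg_left h5 hI0.le
        _ ≤ (Irn K u).card * ((q ^ (ε / 2 * (n : ℝ)) * ((Irn K u).card : ℝ)) *
              q ^ (2 * (u + L))) := by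
              apply mul_le_mul_of_nonneg_left _ hI0.le
              exact mul_le_mul_of_nonneg_right h2 (by positivity)
        _ = ((Irn K u).card : ℝ) ^ 2 * q ^ (2 * (u + L)) * q ^ (ε / 2 * (n : ℝ)) := by ring)
  have hm' := mem_Irn.1 hm
  refine ⟨m, hm'.1, hm'.2.2, hm'.2.1, SmI K N (u + L) (L / 8) (dq (m * g)), ?_, ?_⟩
  · rw [← hqdef]
    exact hcm
  · intro s hs
    unfold SmI at hs
    rw [Finset.mem_filter, mem_Mn] at hs
    obtain ⟨⟨h1, h2⟩, h3, h4, h5⟩ := hs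
    exact ⟨h1, h2, h4, h5, fib_of hm'.1 hm'.2.2 hm'.2.1 hu1 (by omega) hg hgn h3⟩

end Pool.Agent.H560.SI
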