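import Mathlib
import Pool.Agent.H560.SI.Wb
import Pool.Agent.H560.SI.Ctr
import Pool.Agent.H297.SI.Grp
import Pool.Agent.H404.SI.Rtc
import Pool.Agent.H155.SI.Vl
import Pool.Agent.H236.SI.Cut
import Pool.Agent.H553.SI.PrdA
import Pool.Agent.H385.SI.SMA
import Pool.Agent.H618.SI.T1K
import Pool.Agent.H181.SI.T2K
import Pool.Agent.H985.FC.Full
import Pool.Agent.H985.Par.Final

/-!
# SI: the theorems, exponent `1 / 4` (helper560)
-/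

set_option autoImplicit false

namespace Pool.Agent.H560.SI

open Polynomial
open scoped Classical
open Pool.Agent.H985.Chow (mob)
open Pool.Agent.H985.Par (Sft)

theorem s_wb : S_wb := wb Pool.Agent.H297.SI.grp Pool.Agent.H985.FC.winFs Pool.Agent.H985.FC.win4s

theorem s_ctr : S_ctr := ctr (Pool.Agent.H385.SI.smA Pool.Agent.H553.SI.prdA)

/-- **Both signs**, exponent `1 / 4`. -/
theorem both_signs (K : Type) [Field K] [Fintype K] [CharP K 2] (θ : ℝ) (hθ : 1 / 4 < θ) :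
    ∃ c : ℝ, 0 < c ∧ ∃ n₀ : ℕ, ∀ n : ℕ, n₀ ≤ n → ∀ h : ℕ, θ * n ≤ (h : ℝ) → h ≤ n →
      ∀ (g : K[X]) (σ : ℤ), g.Monic → g.natDegree = n → (σ = 1 ∨ σ = -1) →
        c * (Fintype.card K : ℝ) ^ h ≤ ((Itv K n h g).filter (fun f => mob f = σ)).card := by
  obtain ⟨θ', hθ'⟩ : ∃ θ' : ℝ, θ' = min θ (1 / 3) := ⟨_, rfl⟩
  have h1 : 1 / 4 < θ' := by rw [hθ']; exact lt_min hθ (by norm_num)
  have h2 : θ' ≤ 1 / 3 := by rw [hθ']; exact min_le_right _ _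
  have h3 : θ' ≤ θ := by rw [hθ']; exact min_le_left _ _
  obtain ⟨c, hc, n₀, hn₀⟩ := Pool.Agent.H618.SI.t1K s_wb Pool.Agent.H404.SI.rtc
    Pool.Agent.H155.SI.vl Pool.Agent.H236.SI.cut Pool.Agent.H985.Par.s_sw K θ' (by linarith)
    (s_ctr K θ' h1 h2)
  refine ⟨c, hc, n₀, fun n hn h hh => hn₀ n hn h (le_trans ?_ hh)⟩
  exact mul_le_mul_of_nonneg_right h3 (Nat.cast_nonneg _)

/-- **Almost primes with both parities**, exponent `1 / 4`. -/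
theorem almost_primes (K : Type) [Field K] [Fintype K] [CharP K 2] (θ : ℝ) (hθ : 1 / 4 < θ) :
    ∃ κ c : ℝ, 0 < κ ∧ 0 < c ∧ ∃ n₀ : ℕ, ∀ n : ℕ, n₀ ≤ n → ∀ h : ℕ, θ * n ≤ (h : ℝ) → h ≤ n →
      ∀ (g : K[X]) (σ : ℤ), g.Monic → g.natDegree = n → (σ = 1 ∨ σ = -1) →
        c * (Fintype.card K : ℝ) ^ h / n ≤
          ((Itv K n h g).filter (fun f => mob f = σ ∧ Sft ⌊κ * n⌋₊ f)).card := by
  obtain ⟨θ', hθ'⟩ : ∃ θ' : ℝ, θ' = min θ (1 / 3) := ⟨_, rfl⟩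
  have h1 : 1 / 4 < θ' := by rw [hθ']; exact lt_min hθ (by norm_num)
  have h2 : θ' ≤ 1 / 3 := by rw [hθ']; exact min_le_right _ _
  have h3 : θ' ≤ θ := by rw [hθ']; exact min_le_left _ _
  obtain ⟨κ, c, hκ, hc, n₀, hn₀⟩ := Pool.Agent.H181.SI.t2K s_wb Pool.Agent.H404.SI.rtc
    Pool.Agent.H155.SI.vl Pool.Agent.H236.SI.cut Pool.Agent.H985.Par.s_sw K θ' (by linarith)
    (s_ctr K θ' h1 h2)
  refine ⟨κ, c, hκ, hc, n₀, fun n hn h hh => hn₀ n hn h (le_trans ?_ hh)⟩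
  exact mul_le_mul_of_nonneg_right h3 (Nat.cast_nonneg _)

end Pool.Agent.H560.SI
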