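import Mathlib
import Pool.Agent.H560.SI.Final

/-!
# SI: the theorems in terms of the number of irreducible factors (helper560)
-/

set_option autoImplicit false

namespace Pool.Agent.H560.SI

open Polynomial
open scoped Classical
open Pool.Agent.H985.Chow (mob)
open Pool.Agent.H985.Par (Sft)
open Pool.Agent.H694.Typ (mem_Mn)

variable {K : Type} [Field K]

lemma mob_one_iff (f : K[X]) : mob f = 1 ↔
    Squarefree f ∧ Even (Multiset.card (UniqueFactorizationMonoid.factors f)) := by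
  unfold mob
  split_ifs with h
  · rw [neg_one_pow_eq_one_iff_even (by norm_num)]
    exact ⟨fun h1 => ⟨h, h1⟩, fun h1 => h1.2⟩
  · exact ⟨fun h1 => absurd h1 (by norm_num), fun h1 => absurd h1.1 h⟩

lemma mob_neg_one_iff (f : K[X]) : mob f = -1 ↔
    Squarefree f ∧ Odd (Multiset.card (UniqueFactorizationMonoid.factors f)) := by
  unfold mob
  split_ifs with h
  · rw [← Nat.not_even_iff_odd]
    constructor
    · intro h1
      refine ⟨h, fun h2 => ?_⟩
      rw [h2.neg_one_pow] at h1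
      norm_num at h1
    · rintro ⟨-, h1⟩
      rw [Nat.not_even_iff_odd] at h1
      exact h1.neg_one_pow
  · exact ⟨fun h1 => absurd h1 (by norm_num), fun h1 => absurd h1.1 h⟩

/-- a member of the interval is monic of degree `n` -/
lemma mem_itv {n h : ℕ} (hn : h ≤ n) {g f : K[X]} (hg : g.Monic) (hgn : g.natDegree = n)
    (hf : (f - g).degree < (h : WithBot ℕ)) : f.Monic ∧ f.natDegree = n := by
  have h1 : (f - g).degree < g.degree := by
    rw [degree_eq_natDegree hg.ne_zero, hgn]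
    exact lt_of_lt_of_le hf (by exact_mod_cast hn)
  have h2 : f = g + (f - g) := by ring
  rw [h2]
  refine ⟨hg.add_of_left h1, ?_⟩
  rw [natDegree_add_eq_left_of_degree_lt h1, hgn]

variable [Fintype K]

lemma itv_coe {n h : ℕ} (hn : h ≤ n) {g : K[X]} (hg : g.Monic) (hgn : g.natDegree = n) :
    ((Itv K n h g : Finset K[X]) : Set K[X]) = {f : K[X] | (f - g).degree < (h : WithBot ℕ)} := by
  ext f
  rw [Finset.mem_coe]
  unfold Itv
  rw [Finset.mem_filter, mem_Mn]
  exact ⟨fun h1 => h1.2, fun h1 => ⟨mem_itv hn hg hgn h1, h1⟩⟩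

lemma ncard_itv {n h : ℕ} (hn : h ≤ n) {g : K[X]} (hg : g.Monic) (hgn : g.natDegree = n)
    (p : K[X] → Prop) [DecidablePred p] :
    ({f : K[X] | (f - g).degree < (h : WithBot ℕ) ∧ p f}.ncard) = ((Itv K n h g).filter p).card := by
  rw [← Set.ncard_coe_finset]
  congr 1
  ext f
  have h1 : f ∈ ((Itv K n h g : Finset K[X]) : Set K[X]) ↔ (f - g).degree < (h : WithBot ℕ) := by
    rw [itv_coe hn hg hgn]
    rfl
  rw [Finset.coe_filter]
  constructor
  · rintro ⟨h2, h3⟩
    exact ⟨h1.2 h2, h3⟩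
  · rintro ⟨h2, h3⟩
    exact ⟨h1.1 h2, h3⟩

omit [Fintype K] in
lemma sft_iff {m : ℕ} {f : K[X]} : Sft m f ↔
    ∀ P : K[X], Irreducible P → P ∣ f → m < P.natDegree := by
  constructor
  · intro h P hP hPf
    have h0 : P.leadingCoeff ≠ 0 := leadingCoeff_ne_zero.2 hP.ne_zero
    have h1 : (C P.leadingCoeff⁻¹ * P).Monic :=
      monic_C_mul_of_mul_leadingCoeff_eq_one (inv_mul_cancel₀ h0)
    have h2 : Associated P (C P.leadingCoeff⁻¹ * P) := by
      refine ⟨(isUnit_C.2 (isUnit_iff_ne_zero.2 (inv_ne_zero h0))).unit, ?_⟩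
      rw [IsUnit.unit_spec, mul_comm]
    have h3 := h _ h1 (h2.irreducible hP) (h2.symm.dvd.trans hPf)
    rwa [natDegree_C_mul (inv_ne_zero h0)] at h3
  · intro h P _ hP hPf
    exact h P hP hPf

/-- **Almost primes with both parities.** -/
theorem almost_top (K : Type) [Field K] [Fintype K] [CharP K 2] (θ : ℝ) (hθ : 1 / 4 < θ) :
    ∃ κ c : ℝ, 0 < κ ∧ 0 < c ∧ ∃ n₀ : ℕ, ∀ n : ℕ, n₀ ≤ n → ∀ h : ℕ, θ * n ≤ (h : ℝ) → h ≤ n →
      ∀ g : K[X], g.Monic → g.natDegree = n →
        c * (Fintype.card K : ℝ) ^ h / n ≤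
          {f : K[X] | (f - g).degree < (h : WithBot ℕ) ∧ Squarefree f ∧
            Odd (Multiset.card (UniqueFactorizationMonoid.factors f)) ∧
            ∀ P : K[X], Irreducible P → P ∣ f → κ * n < (P.natDegree : ℝ)}.ncard ∧
        c * (Fintype.card K : ℝ) ^ h / n ≤
          {f : K[X] | (f - g).degree < (h : WithBot ℕ) ∧ Squarefree f ∧
            Even (Multiset.card (UniqueFactorizationMonoid.factors f)) ∧
            ∀ P : K[X], Irreducible P → P ∣ f → κ * n < (P.natDegree : ℝ)}.ncard := by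
  obtain ⟨κ, c, hκ, hc, n₀, hn₀⟩ := almost_primes K θ hθ
  refine ⟨κ, c, hκ, hc, n₀, fun n hn h hh hhn g hg hgn => ?_⟩
  have hfl : ∀ f : K[X], Sft ⌊κ * (n : ℝ)⌋₊ f ↔
      ∀ P : K[X], Irreducible P → P ∣ f → κ * n < (P.natDegree : ℝ) := by
    intro f
    rw [sft_iff]
    have h0 : 0 ≤ κ * (n : ℝ) := by positivity
    exact forall_congr' fun P => imp_congr_right fun _ => imp_congr_right fun _ => Nat.floor_lt h0
  constructor
  · have h1 := hn₀ n hn h hh hhn g (-1) hg hgn (Or.inr rfl)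
    rw [← ncard_itv hhn hg hgn] at h1
    refine h1.trans (le_of_eq ?_)
    congr 2
    ext f
    simp only [Set.mem_setOf_eq, mob_neg_one_iff, hfl, and_assoc]
  · have h1 := hn₀ n hn h hh hhn g 1 hg hgn (Or.inl rfl)
    rw [← ncard_itv hhn hg hgn] at h1
    refine h1.trans (le_of_eq ?_)
    congr 2
    ext f
    simp only [Set.mem_setOf_eq, mob_one_iff, hfl, and_assoc]

/-- **Both signs of the Möbius function with a positive proportion**, and the bound for its sum. -/
theorem signs_top (K : Type) [Field K] [Fintype K] [CharP K 2] (θ : ℝ) (hθ : 1 / 4 < θ) :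
    ∃ c : ℝ, 0 < c ∧ ∃ n₀ : ℕ, ∀ n : ℕ, n₀ ≤ n → ∀ h : ℕ, θ * n ≤ (h : ℝ) → h ≤ n →
      ∀ g : K[X], g.Monic → g.natDegree = n →
        c * (Fintype.card K : ℝ) ^ h ≤ {f : K[X] | (f - g).degree < (h : WithBot ℕ) ∧ mob f = 1}.ncard ∧
        c * (Fintype.card K : ℝ) ^ h ≤ {f : K[X] | (f - g).degree < (h : WithBot ℕ) ∧ mob f = -1}.ncard ∧
        |∑ᶠ f ∈ {f : K[X] | (f - g).degree < (h : WithBot ℕ)}, (mob f : ℝ)| ≤
          {f : K[X] | (f - g).degree < (h : WithBot ℕ) ∧ Squarefree f}.ncard -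
            c * (Fintype.card K : ℝ) ^ h := by
  obtain ⟨c, hc, n₀, hn₀⟩ := both_signs K θ hθ
  refine ⟨c, hc, n₀, fun n hn h hh hhn g hg hgn => ?_⟩
  have h1 := hn₀ n hn h hh hhn g 1 hg hgn (Or.inl rfl)
  have h2 := hn₀ n hn h hh hhn g (-1) hg hgn (Or.inr rfl)
  rw [ncard_itv hhn hg hgn, ncard_itv hhn hg hgn, ncard_itv hhn hg hgn]
  refine ⟨h1, h2, ?_⟩
  rw [← itv_coe hhn hg hgn, finsum_mem_coe_finset]
  have hval : ∀ f : K[X], (Squarefree f ∧ (mob f = 1 ∨ mob f = -1)) ∨ (¬ Squarefree f ∧ mob f = 0) := by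
    intro f
    by_cases h4 : Squarefree f
    · left
      refine ⟨h4, ?_⟩
      unfold mob
      rw [if_pos h4]
      exact neg_one_pow_eq_or ℤ _
    · right
      refine ⟨h4, ?_⟩
      unfold mob
      rw [if_neg h4]
  have h3 : ∀ f : K[X], (mob f : ℝ) = (if mob f = 1 then (1 : ℝ) else 0) -
      (if mob f = -1 then (1 : ℝ) else 0) := by
    intro f
    rcases hval f with ⟨-, h5 | h5⟩ | ⟨-, h5⟩ <;> rw [h5] <;> norm_num
  have h4 : ∀ f : K[X], (if Squarefree f then (1 : ℝ) else 0) = (if mob f = 1 then (1 : ℝ) else 0) +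
      (if mob f = -1 then (1 : ℝ) else 0) := by
    intro f
    rcases hval f with ⟨h4, h5 | h5⟩ | ⟨h4, h5⟩
    · rw [h5, if_pos h4]; norm_num
    · rw [h5, if_pos h4]; norm_num
    · rw [h5, if_neg h4]; norm_num
  have e1 : ∀ (p : K[X] → Prop) [DecidablePred p], (((Itv K n h g).filter p).card : ℝ) =
      ∑ f ∈ Itv K n h g, if p f then (1 : ℝ) else 0 := by
    intro p _
    rw [Finset.card_filter]
    push_cast
    rfl
  rw [e1 Squarefree, Finset.sum_congr rfl (fun f _ => h3 f), Finset.sum_congr rfl (fun f _ => h4 f),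
    Finset.sum_sub_distrib, Finset.sum_add_distrib, ← e1 (fun f => mob f = 1),
    ← e1 (fun f => mob f = -1)]
  have h5 : 0 ≤ c * (Fintype.card K : ℝ) ^ h := by positivity
  rw [abs_le]
  constructor <;> linarith

end Pool.Agent.H560.SI
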